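import Mathlib
import Pool.Agent.H97R2.BP.Defs
import Pool.Agent.H97R2.BP.Defs2

open scoped ComplexOrder InnerProductSpace ComplexConjugate TensorProduct
open Finset H759R2.Kad H710R2.DP

noncomputable section

namespace H97R2.BP

theorem bp_conj : Z_conj := by
  intro H _ _ _
  obtain ⟨w, b, -⟩ := exists_hilbertBasis ℂ H
  refine ⟨(b.repr.trans (starₗᵢ ℂ)).trans b.repr.symm, fun x => ?_⟩
  simp only [LinearIsometryEquiv.trans_apply, LinearIsometryEquiv.apply_symm_apply, starₗᵢ_apply,
    star_star, LinearIsometryEquiv.symm_apply_apply]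

end H97R2.BP
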